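import Pool.Agent.PCS.Stmts

/-!
Squad PCS, row EXT: the root is good, and there is an extremal good ultrafilter.
-/

namespace Pool.Agent.PCS.H47

open Pool.Agent.PCS

theorem exists_lex (P : ℕ → ℕ → ℕ → Prop) (M : ℕ) (hM : ∀ δ n σ, P δ n σ → n ≤ M)
    (hne : ∃ δ n σ, P δ n σ) :
    ∃ δ n σ, P δ n σ ∧ ∀ δ' n' σ', P δ' n' σ' →
      δ ≤ δ' ∧ (δ' = δ → n' ≤ n) ∧ (δ' = δ → n' = n → σ ≤ σ') := by
  classical
  let δ0 := Nat.find hne
  have h1 : ∃ n σ, P δ0 n σ := Nat.find_spec hne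
  have h2 : ∃ m, ∃ n σ, P δ0 n σ ∧ m = M - n := by
    obtain ⟨n, σ, h⟩ := h1
    exact ⟨M - n, n, σ, h, rfl⟩
  let m0 := Nat.find h2
  obtain ⟨n0, σ1, hP, hm⟩ : ∃ n σ, P δ0 n σ ∧ m0 = M - n := Nat.find_spec h2
  have h3 : ∃ σ, P δ0 n0 σ := ⟨σ1, hP⟩
  let σ0 := Nat.find h3
  have h4 : P δ0 n0 σ0 := Nat.find_spec h3
  refine ⟨δ0, n0, σ0, h4, ?_⟩
  intro δ' n' σ' h'
  refine ⟨Nat.find_min' hne ⟨n', σ', h'⟩, ?_, ?_⟩
  · intro hd
    subst hd
    have h5 : m0 ≤ M - n' := Nat.find_min' h2 ⟨n', σ', h', rfl⟩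
    have h6 := hM _ _ _ h'
    have h7 := hM _ _ _ hP
    omega
  · intro hd hn
    subst hd
    subst hn
    exact Nat.find_min' h3 h'

theorem ext (_hItp : ItpStmt) (hCst : CstStmt) : ExtStmt := by
  intro Γ V _ _ T S rk R K q M hset hM
  have hne : S.Nonempty := ⟨1, hset.one_mem⟩
  have hfix : ∀ g : Γ, g • T.root = T.root := by
    intro g
    refine T.eq_root _ ?_
    rw [T.lv_smul, T.lv_root]
  have hpar : ∀ (k : ℕ) (w : V), T.lv w = k → T.par^[k] w = T.root := by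
    intro k
    induction k with
    | zero => intro w hw; exact T.eq_root _ hw
    | succ k ih =>
      intro w hw
      rw [Function.iterate_succ_apply]
      refine ih _ ?_
      rw [T.lv_par, hw]
      rfl
  have hgood : Good T (pure T.root : Ultrafilter V) (N Γ T.root) := by
    refine ⟨?_, ?_⟩
    · rw [Ultrafilter.coe_pure, Filter.eventually_pure]
    · refine hset.ker.subset ?_
      intro g hg v
      have hg' : ∀ᶠ v in ((pure T.root : Ultrafilter V) : Filter V), g ∈ KK T v := hg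
      rw [Ultrafilter.coe_pure, Filter.eventually_pure] at hg'
      exact hg' (T.lv v) v (hpar _ _ rfl)
  let P : ℕ → ℕ → ℕ → Prop := fun δ n σ => ∃ U : Ultrafilter V, Good T U n ∧
    (∀ᶠ v in (U : Filter V), del S rk v = δ) ∧ ∀ᶠ v in (U : Filter V), sig S rk v = σ
  obtain ⟨δ, n, σ, ⟨U, h1, h2, h3⟩, h4⟩ := exists_lex P M
    (by
      rintro δ n σ ⟨U, h, _, _⟩
      exact hM U n h)
    (by
      obtain ⟨δ, σ, _, h2, h3⟩ := hCst Γ V T S rk R hset.rank hne _ _ hgood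
      exact ⟨δ, _, σ, _, hgood, h2, h3⟩)
  refine ⟨U, n, δ, σ, h1, h2, h3, ?_⟩
  intro U' n' δ' σ' a1 a2 a3
  exact h4 δ' n' σ' ⟨U', a1, a2, a3⟩

end Pool.Agent.PCS.H47

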